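import Pool.Agent.U935.BBR.Defs

/-!
# Bloch-Beilinson filtrations and rational varieties: proofs
-/

set_option autoImplicit false

open CategoryTheory AlgebraicGeometry

universe u v w

namespace Pool.Agent.U935.BBR

open Pool.Agent.H914 Pool.Agent.H914.VarClass Pool.Agent.H914.VarClass.Obj Pool.Agent.W492.BB
  Pool.Agent.U644.BBL Pool.Agent.U435.BB

variable {k : Type u} [Field k] {𝒱 : VarClass k} {C : TheoryData.{u, v, 0} 𝒱 ℚ} {K : Type w}
  [Field K] {H : WeilTheoryData.{u, v, w} C K} [hC : IsChow C] [hH : IsWeil H]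
  {A : AbelJacobi H} {X Y P E Z W : 𝒱.Obj}

section realised

omit hC hH in
lemma map_zero_of {e : ℤ} {φ : C.A X → C.A Y} {ψ : H.A X → H.A Y} (h : Realised H X Y e φ ψ) :
    φ 0 = 0 := by
  obtain ⟨Γ, -, h1, -⟩ := h
  rw [← h1, C.act_map_zero]

omit hC hH in
lemma mapH_zero_of {e : ℤ} {φ : C.A X → C.A Y} {ψ : H.A X → H.A Y} (h : Realised H X Y e φ ψ) :
    ψ 0 = 0 := by
  obtain ⟨Γ, -, -, h1⟩ := h
  rw [← h1, H.act_map_zero]

omit hH in
lemma mem_of {e i : ℤ} {φ : C.A X → C.A Y} {ψ : H.A X → H.A Y} (h : Realised H X Y e φ ψ)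
    {x : C.A X} (hx : x ∈ C.gr X i) : φ x ∈ C.gr Y (i + e) := by
  obtain ⟨Γ, hΓ, h1, -⟩ := h
  rw [← h1]
  exact act_mem hΓ hx

lemma memH_of {e m : ℤ} {φ : C.A X → C.A Y} {ψ : H.A X → H.A Y} (h : Realised H X Y e φ ψ)
    {a : H.A X} (ha : a ∈ H.gr X m) : ψ a ∈ H.gr Y (m + 2 * e) := by
  obtain ⟨Γ, hΓ, -, h1⟩ := h
  rw [← h1]
  exact actH_mem H hΓ ha

lemma pow_mem {ζ : C.A X} (h : C.Deg 1 ζ) (n : ℕ) : ζ ^ n ∈ C.gr X n := by
  induction n with
  | zero => rw [pow_zero]; exact_mod_cast C.one_mem X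
  | succ n ih =>
    rw [pow_succ]
    have h1 := C.mul_mem ih h
    rwa [show ((n : ℤ) + 1) = ((n + 1 : ℕ) : ℤ) by push_cast; ring] at h1

end realised

section blowup

/-- the operators `β = j_* p^* : CH^i(X) → CH^(i+1)(Y)` and
`α = - p_* ζ^(r-2) j^* : CH^(i+1)(Y) → CH^i(X)` of a blow-up -/
lemma BlowUpOf.ops (h : BlowUpOf C X P Y) :
    ∃ (β : C.A X → C.A Y) (β' : H.A X → H.A Y) (α : C.A Y → C.A X) (α' : H.A Y → H.A X),
      Realised H X Y 1 β β' ∧ Realised H Y X (-1) α α' ∧ ∀ x, α (β x) = x := by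
  obtain ⟨r, E, i, g, j, p, ζ, h⟩ := h
  have d1 := h.dim_center
  have d2 := h.dim_eq
  have d3 := h.dim_exc
  have d4 := h.two_le
  have hc : -ζ ^ (r - 2) ∈ C.gr E ((r - 2 : ℕ) : ℤ) := Submodule.neg_mem _ (pow_mem h.deg_zeta _)
  refine ⟨_, _, _, _, ((Realised.pull p).comp (Realised.push j)).congr ?_ (fun _ => rfl)
    (fun _ => rfl), (((Realised.pull j).comp (Realised.mul hc)).comp (Realised.push p)).congr ?_
      (fun _ => rfl) (fun _ => rfl), fun x => ?_⟩
  · omega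
  · omega
  · have h1 : C.pull j (C.push j (C.pull p x)) = -(ζ * C.pull p x) := h.self_int _
    have h2 : C.push p (ζ ^ (r - 1)) = 1 := h.down_pow
    change C.push p (-ζ ^ (r - 2) * C.pull j (C.push j (C.pull p x))) = x
    rw [h1, neg_mul_neg, ← mul_assoc, ← pow_succ, show r - 2 + 1 = r - 1 by omega,
      C.proj_right, h2, one_mul]

/-- chains of self-correspondences of the centre of a blow-up give chains on the blow-up, in
codimension one higher -/
lemma SelfChain.toBlowUp {β : C.A X → C.A Y} {β' : H.A X → H.A Y} {α : C.A Y → C.A X}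
    {α' : H.A Y → H.A X} (hβ : Realised H X Y 1 β β') (hα : Realised H Y X (-1) α α')
    (hαβ : ∀ x, α (β x) = x) {n i : ℕ} {z : C.A X} (h : SelfChain A X n i z) :
    SelfChain A Y n (i + 1) (β z) := by
  induction h with
  | base j z hz =>
    obtain ⟨γ, hγ, h1, -⟩ := hβ
    rw [← h1]
    refine SelfChain.base (j + 1) _ (ker_act (i := j + 1) ?_ hz)
    rw [shifts_iff]
    rwa [show (((j + 1 : ℕ) : ℤ) - j) = 1 by push_cast; ring]
  | step r j i z Γ hz hΓ hk ih =>
    obtain ⟨Γ', hΓ', h1, h2⟩ := (hα.comp (Realised.of (H := H) (shifts_iff.1 hΓ))).comp hβ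
    have e1 : C.act Γ' (β z) = β (C.act Γ z) := by
      rw [h1]
      beta_reduce
      rw [hαβ]
    rw [← e1]
    refine SelfChain.step r (j + 1) (i + 1) _ Γ' ih ?_ ?_
    · rw [shifts_iff]
      rwa [show ((-1 : ℤ) + ((i : ℤ) - j) + 1) = ((i + 1 : ℕ) : ℤ) - ((j + 1 : ℕ) : ℤ) by
        push_cast; ring] at hΓ'
    · intro a ha
      rw [h2]
      beta_reduce
      rw [hk _ ?_, mapH_zero_of hβ]
      have h3 := memH_of hα ha
      rwa [show (2 * (((j + 1 : ℕ) : ℤ)) - r + 2 * (-1)) = 2 * (j : ℤ) - r by push_cast; ring]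
        at h3

variable (A) in
/-- all chains of length `i + 1 + e` ending in codimension `i` vanish -/
def AllVanishTop (e : ℕ) : Prop :=
  ∀ (X : 𝒱.Obj) (i : ℕ) (z : C.A X), Chain A (i + 1 + e) X i z → z = 0

lemma allVanishTop_of (e : ℕ) (S : Set 𝒱.Obj) (hS : ∀ X, ∃ Y ∈ S, ∃ P, BlowUpOf C X P Y)
    (h : ∀ Y ∈ S, ChainsVanishTop A e Y) : AllVanishTop A (e + 1) := by
  intro X i z hz
  obtain ⟨W, f, u, hu, hu1, hs⟩ := hz.embed
  obtain ⟨Y, hY, P, hP⟩ := hS W
  obtain ⟨β, β', α, α', hβ, hα, hαβ⟩ := hP.ops (H := H)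
  have h1 := SelfChain.toBlowUp hβ hα hαβ hs
  rw [show i + 1 + (e + 1) = (i + 1) + 1 + e by omega] at h1
  have h2 := h Y hY _ _ h1
  have h3 : C.pull f z = 0 := by rw [← hαβ (C.pull f z), h2, map_zero_of hα]
  exact eq_zero_of_pull hu1 h3

/-- the smallest candidate is a Bloch-Beilinson filtration with the weaker vanishing -/
lemma isBBWith_small {e : ℕ} (hv : AllVanishTop A e) : IsBBWith A (TopZero e) (small A) := by
  refine ⟨fun X => ⟨?_, ?_, ?_, ?_⟩, fun X => ?_, fun X Y => ⟨?_, ?_⟩⟩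
  · rintro i n x ⟨h1, h2, h3⟩
    refine ⟨h1, fun h => h2 (by omega), fun h => ?_⟩
    exact Submodule.span_mono (fun z hz => Chain.anti hz h) (h3 (by omega))
  · intro i x
    exact ⟨fun h => h.1, fun h => ⟨h, fun h => by omega, fun h => by omega⟩⟩
  · intro i x
    exact ⟨fun h => ⟨h.1, h.2.1 le_rfl⟩, fun h => ⟨h.1, fun _ => h.2, fun h => by omega⟩⟩
  · intro i x
    exact ⟨fun h => span_ker (h.2.2 le_rfl), fun h => ⟨h.1.1, fun _ => h.1.2, fun _ =>
      Submodule.subset_span (Chain.base X i x h)⟩⟩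
  · rintro i x ⟨h1, h2, h3⟩
    rcases Nat.eq_zero_or_pos i with rfl | hi
    · exact A.codim_zero ⟨h1, h2 (by omega)⟩
    · have h4 := h3 (by omega)
      have h5 : Submodule.span ℚ {z : C.A X | Chain A (i + 1 + e) X i z} ≤ ⊥ := by
        rw [Submodule.span_le]
        intro z hz
        rw [hv X i z hz]
        exact Submodule.zero_mem _
      exact (Submodule.mem_bot ℚ).1 (h5 h4)
  · rintro j i n Γ hΓ x ⟨h1, h2, h3⟩
    refine ⟨act_deg hΓ h1, fun h => (homTriv_act hΓ ⟨h1, h2 h⟩).2, fun h => ?_⟩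
    have h4 := h3 h
    induction h4 using Submodule.span_induction with
    | mem z hz => exact Submodule.subset_span (hz.stable hΓ)
    | zero => rw [C.act_map_zero]; exact Submodule.zero_mem _
    | add x y hx hy ihx ihy =>
      rw [← C.actL_apply, map_add, C.actL_apply, C.actL_apply]
      exact Submodule.add_mem _ (ihx (span_ker hx).1.1 (fun _ => (span_ker hx).1.2) fun _ => hx)
        (ihy (span_ker hy).1.1 (fun _ => (span_ker hy).1.2) fun _ => hy)
    | smul q x hx ihx =>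
      rw [← C.actL_apply, map_smul, C.actL_apply]
      exact Submodule.smul_mem _ _ (ihx (span_ker hx).1.1 (fun _ => (span_ker hx).1.2) fun _ => hx)
  · rintro j i n Γ hΓ hk x ⟨h1, h2, h3⟩
    rcases n with _ | _ | n
    · have h4 : HomTriv H i (C.act Γ x) := homTriv_act_of_kills hΓ (by simpa using hk) h1
      exact ⟨h4.1, fun _ => h4.2, fun h => by omega⟩
    · have h4 : A.Ker i (C.act Γ x) := ker_act_of_kills A hΓ (by simpa using hk) ⟨h1, h2 (by omega)⟩
      exact ⟨h4.1.1, fun _ => h4.1.2, fun _ => Submodule.subset_span (Chain.base Y i _ h4)⟩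
    · have h4 := h3 (by omega)
      have h5 : C.act Γ x ∈ Submodule.span ℚ {z : C.A Y | Chain A (n + 1 + 1 + 1) Y i z} := by
        clear h1 h2 h3
        induction h4 using Submodule.span_induction with
        | mem z hz => exact Submodule.subset_span (Chain.step _ X Y j i z Γ hz hΓ hk)
        | zero => rw [C.act_map_zero]; exact Submodule.zero_mem _
        | add x y hx hy ihx ihy =>
          rw [← C.actL_apply, map_add, C.actL_apply, C.actL_apply]
          exact Submodule.add_mem _ ihx ihy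
        | smul q x hx ihx =>
          rw [← C.actL_apply, map_smul, C.actL_apply]
          exact Submodule.smul_mem _ _ ihx
      have h6 := span_ker h5
      exact ⟨h6.1.1, fun _ => h6.1.2, fun _ => h5⟩

end blowup

section ratl

omit hC hH in
lemma LowSteps.le {F : ℕ → ℕ → Submodule ℚ (C.A X)} (hF : LowSteps A F) {i m n : ℕ} (h : m ≤ n) :
    F i n ≤ F i m := by
  induction n, h using Nat.le_induction with
  | base => exact le_rfl
  | succ n _ ih => exact (hF.anti i n).trans ih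

omit hH in
lemma mem_step_of {F : ℕ → ℕ → Submodule ℚ (C.A X)} {G : ℕ → ℕ → Submodule ℚ (C.A Y)}
    (hr : Respects H F G) {e : ℤ} {φ : C.A X → C.A Y} {ψ : H.A X → H.A Y}
    (h : Realised H X Y e φ ψ) {j i n : ℕ} (hij : (i : ℤ) - j = e) {x : C.A X} (hx : x ∈ F j n) :
    φ x ∈ G i n := by
  obtain ⟨Γ, hΓ, h1, -⟩ := h
  rw [← h1]
  refine hr.stable j i n Γ ?_ x hx
  rw [shifts_iff, hij]
  exact hΓ

omit hH in
/-- `p_* ζ^n = 0` for `n < r - 1` -/
lemma IsBlowUp.down_pow_lt {r : ℕ} {i : X ⟶ P} {g : Y ⟶ P} {j : E ⟶ Y} {p : E ⟶ X} {ζ : C.A E}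
    (h : IsBlowUp C r i g j p ζ) {n : ℕ} (hn : n < r - 1) : C.push p (ζ ^ n) = 0 := by
  have d1 := h.dim_center
  have d2 := h.dim_eq
  have d3 := h.dim_exc
  have h1 := C.push_mem p (pow_mem h.deg_zeta n)
  rw [C.gr_neg X _ (by omega)] at h1
  exact (Submodule.mem_bot ℚ).1 h1

omit hH in
/-- the coefficients of a class on the blow-up -/
lemma IsBlowUp.eq_zero {r : ℕ} {i : X ⟶ P} {g : Y ⟶ P} {j : E ⟶ Y} {p : E ⟶ X} {ζ : C.A E}
    (h : IsBlowUp C r i g j p ζ) {y : C.A Y} (h0 : C.push g y = 0)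
    (h1 : ∀ c < r - 1, C.push p (ζ ^ (r - 2 - c) * C.pull j y) = 0) : y = 0 := by
  have d4 := h.two_le
  obtain ⟨a, x, hy⟩ := h.span y
  have hj : ∀ e : C.A E, C.pull j (C.push j e) = -(ζ * e) := h.self_int
  have ha : a = 0 := by
    have h2 : C.push g (C.pull g a) = a := by
      have h3 := C.proj_right g 1 a
      rw [one_mul] at h3
      rw [h3]
      change C.down g 1 * a = a
      rw [h.down_one, one_mul]
    have h3 : ∀ c ∈ Finset.range (r - 1), C.push g (C.push j (ζ ^ c * C.pull p (x c))) = 0 := by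
      intro c hc
      rw [← C.push_comp, h.comm, C.push_comp, C.proj_right, h.down_pow_lt (Finset.mem_range.1 hc),
        zero_mul, map_zero]
    have h4 : C.push g y = a := by
      rw [hy]
      change C.push g (C.pull g a + ∑ c ∈ Finset.range (r - 1),
        C.push j (ζ ^ c * C.pull p (x c))) = a
      rw [map_add, map_sum, Finset.sum_eq_zero h3, h2, add_zero]
    rw [← h4, h0]
  have hx : ∀ t c : ℕ, c < r - 1 → r - 1 ≤ c + t → x c = 0 := by
    intro t
    induction t with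
    | zero => intro c h2 h3; omega
    | succ t ih =>
      intro c hc hct
      have h2 := h1 c hc
      have h3 : C.pull j y = -∑ d ∈ Finset.range (r - 1), ζ ^ (d + 1) * C.pull p (x d) := by
        rw [hy, ha]
        change C.pull j (C.pull g 0 + ∑ c ∈ Finset.range (r - 1),
          C.push j (ζ ^ c * C.pull p (x c))) = _
        rw [map_zero, zero_add, map_sum, ← Finset.sum_neg_distrib]
        refine Finset.sum_congr rfl fun d _ => ?_
        rw [hj, ← mul_assoc, ← pow_succ']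
      rw [h3, mul_neg, map_neg, neg_eq_zero, Finset.mul_sum, map_sum,
        Finset.sum_eq_single_of_mem c (Finset.mem_range.2 hc)] at h2
      · rw [← mul_assoc, ← pow_add, show r - 2 - c + (c + 1) = r - 1 by omega,
          C.proj_right] at h2
        change C.down p (ζ ^ (r - 1)) * x c = 0 at h2
        rwa [h.down_pow, one_mul] at h2
      · intro d hd hdc
        rw [Finset.mem_range] at hd
        rw [← mul_assoc, ← pow_add, C.proj_right]
        rcases Nat.lt_or_ge d c with h4 | h4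
        · rw [h.down_pow_lt (by omega), zero_mul]
        · rw [ih d hd (by omega), mul_zero]
  rw [hy, ha]
  change C.pull g 0 + ∑ c ∈ Finset.range (r - 1), C.push j (ζ ^ c * C.pull p (x c)) = 0
  rw [map_zero, zero_add]
  refine Finset.sum_eq_zero fun c hc => ?_
  rw [hx (r - 1) c (Finset.mem_range.1 hc) (by omega), map_zero, mul_zero, map_zero]

/-- If `F` is a Bloch-Beilinson filtration for all varieties with `F^(i+2+e) CH^i = 0`, then
`F^(m+1+e) CH^m(Y) = 0` for the varieties `Y` in the class `Ratl`. -/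
lemma top_of_ratl {e : ℕ} {F : ∀ X : 𝒱.Obj, ℕ → ℕ → Submodule ℚ (C.A X)}
    (hF : IsBBWith A (TopZero (e + 1)) F) {Y : 𝒱.Obj} (hY : Ratl H Y) :
    TopZero e (F Y) := by
  induction hY with
  | cell P hP =>
    intro i x hx
    exact hP i x (((hF.steps P).one i x).1 ((hF.steps P).le (by omega) hx))
  | blowUp X P Y hP h ih =>
    obtain ⟨r, E, i, g, j, p, ζ, h⟩ := h
    have d1 := h.dim_center
    have d2 := h.dim_eq
    have d3 := h.dim_exc
    have d4 := h.two_le
    intro m y hy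
    refine h.eq_zero ?_ fun c hc => ?_
    · refine ih m _ (mem_step_of (hF.respects Y P) (Realised.push (H := H) g) ?_ hy)
      omega
    · have hr := ((Realised.pull (H := H) j).comp (Realised.mul (pow_mem h.deg_zeta
        (r - 2 - c)))).comp (Realised.push p)
      rcases Nat.lt_or_ge m (c + 1) with h1 | h1
      · have h2 := mem_of hr (i := m) (((hF.steps Y).zero m y).1
          ((hF.steps Y).le (Nat.zero_le _) hy))
        rw [C.gr_neg X _ (by omega)] at h2
        exact (Submodule.mem_bot ℚ).1 h2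
      · have h2 := mem_step_of (hF.respects Y X) hr (i := m - (c + 1)) (by omega) hy
        exact hF.top X _ _ ((hF.steps X).le (by omega) h2)
  | dominated Y X hY h ih =>
    obtain ⟨f, u, hu, hu1⟩ := h
    intro m x hx
    exact eq_zero_of_pull hu1 (ih m _ (mem_step_of (hF.respects X Y) (Realised.pull (H := H) f)
      (by omega) hx))

end ratl

section lefschetz

omit hC hH in
lemma IsBBAtWith.chainsVanish {e : ℕ} {X : 𝒱.Obj} {F : ℕ → ℕ → Submodule ℚ (C.A X)}
    (hF : IsBBAtWith A (TopZero e) X F) : ChainsVanishTop A e X := by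
  have h : ∀ n i z, SelfChain A X n i z → z ∈ F i n := by
    intro n i z hz
    induction hz with
    | base j z hz => exact (hF.steps.two j z).2 hz
    | step r j i z Γ hz hΓ hk ih => exact hF.respects.shift j i r Γ hΓ hk z ih
  exact fun i z hz => hF.top i z (h _ _ _ hz)

/-- Under the conjecture of Lefschetz type in degree `2 i - n`, `F^n CH^i(X) = F^(n+1) CH^i(X)` for
`n > i`. -/
lemma mem_succ (hd : ∀ (X : 𝒱.Obj) (i : ℤ) (x : C.A X), C.Deg i x → (X.dim : ℤ) < i → x = 0)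
    {F : ℕ → ℕ → Submodule ℚ (C.A X)} (hF : LowSteps A F) (hr : Respects H F F) {D : C.A X}
    {i : ℕ} (hB : LefschetzBelow H D i) {n : ℕ} (hn : i < n) {x : C.A X} (hx : x ∈ F i n) :
    x ∈ F i (n + 1) := by
  have hx0 : C.Deg i x := (hF.zero i x).1 (hF.le (Nat.zero_le _) hx)
  rcases Nat.lt_or_ge X.dim i with h1 | h1
  · rw [hd X i x hx0 (by exact_mod_cast h1)]
    exact Submodule.zero_mem _
  rcases Nat.lt_or_ge (2 * i) n with h2 | h2
  · obtain ⟨δ, hδ, hδ1, -⟩ := Realised.id (H := H) X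
    have h3 := hr.shift i i n δ (by rw [shifts_iff, sub_self]; exact hδ) (fun a ha => ?_) x hx
    · rwa [hδ1] at h3
    · have h4 : a ∈ H.gr X (2 * (i : ℤ) - n) := ha
      rw [H.gr_neg X _ (by omega)] at h4
      rw [(Submodule.mem_bot K).1 h4, H.act_map_zero]
  · obtain ⟨m, hm⟩ : ∃ m, m + n = 2 * i := ⟨2 * i - n, by omega⟩
    obtain ⟨θ, hθ, hθ1, -⟩ := hB.inverse m (by omega) (by omega)
    have hθ' : θ ∈ C.gr (X.prod X) (X.dim + ((m : ℤ) - X.dim)) := by
      rwa [show (X.dim : ℤ) + ((m : ℤ) - X.dim) = m by ring]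
    have hDn := pow_mem hB.deg (X.dim - m)
    obtain ⟨Γ, hΓ, hΓ1, hΓ2⟩ := (Realised.id (H := H) X).sub
      (((Realised.mul hDn).comp (Realised.of (H := H) hθ')).congr (e' := 0) (by omega)
        (fun _ => rfl) (fun _ => rfl))
    have h3 := hr.shift i i n Γ (by rw [shifts_iff, sub_self]; exact hΓ) (fun a ha => ?_) x hx
    · rw [hΓ1] at h3
      beta_reduce at h3
      have h5 : D ^ (X.dim - m) * x = 0 := hd X _ _ (C.mul_mem hDn hx0) (by omega)
      rwa [h5, C.act_map_zero, sub_zero] at h3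
    · rw [hΓ2]
      beta_reduce
      have ha' : H.Deg m a := by
        rwa [show (2 * (i : ℤ) - n) = m by omega] at ha
      have h4 := hθ1 a ha'
      change H.act (H.cl θ) (H.cl D ^ (X.dim - m) * a) = a at h4
      rw [map_pow, h4, sub_self]

/-- Under the conjecture of Lefschetz type in degrees `< i`, a separated filtration satisfies
`F^(i+1) CH^i(X) = 0`. -/
lemma top_of_lefschetz
    (hd : ∀ (X : 𝒱.Obj) (i : ℤ) (x : C.A X), C.Deg i x → (X.dim : ℤ) < i → x = 0)
    {F : ℕ → ℕ → Submodule ℚ (C.A X)} (hF : IsBBAtWith A Separated X F) {D : C.A X}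
    {i : ℕ} (hB : LefschetzBelow H D i) {x : C.A X} (hx : x ∈ F i (i + 1)) : x = 0 := by
  have h1 : ∀ n, x ∈ F i (i + 1 + n) := by
    intro n
    induction n with
    | zero => exact hx
    | succ n ih => exact mem_succ hd hF.steps hF.respects hB (n := i + 1 + n) (by omega) ih
  exact hF.top i x fun n => hF.steps.le (show n ≤ i + 1 + n by omega) (h1 n)

end lefschetz

omit hC hH in
lemma IsBBWith.at {T : ∀ {X : 𝒱.Obj}, (ℕ → ℕ → Submodule ℚ (C.A X)) → Prop}
    {F : ∀ X : 𝒱.Obj, ℕ → ℕ → Submodule ℚ (C.A X)} (hF : IsBBWith A T F) (X : 𝒱.Obj) :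
    IsBBAtWith A T X (F X) :=
  ⟨hF.steps X, hF.top X, hF.respects X X⟩

omit hC hH in
lemma TopZero.sep {e : ℕ} {F : ℕ → ℕ → Submodule ℚ (C.A X)} (h : TopZero e F) : Separated F :=
  fun i x hx => h i x (hx _)

omit hC hH in
lemma lefschetzBelow {D : C.A X} (h : LefschetzB H D) (N : ℕ) : LefschetzBelow H D N :=
  ⟨h.deg, fun l _ hl => h.inverse l hl⟩

/-- without standard conjectures -/
theorem tfae_shift (A : AbelJacobi H) (S : Set 𝒱.Obj)
    (hS : ∀ X, ∃ Y ∈ S, ∃ P, BlowUpOf C X P Y) (hS' : ∀ Y ∈ S, Ratl H Y) (e : ℕ) :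
    List.TFAE [HasBBTop A (e + 1), ∀ Y ∈ S, HasBBTopAt A e Y, ∀ Y ∈ S, ChainsVanishTop A e Y] := by
  tfae_have 1 → 2 := by
    rintro ⟨F, hF⟩ Y hY
    exact ⟨F Y, hF.steps Y, top_of_ratl hF (hS' Y hY), hF.respects Y Y⟩
  tfae_have 2 → 3 := by
    intro h Y hY
    obtain ⟨F, hF⟩ := h Y hY
    exact hF.chainsVanish
  tfae_have 3 → 1 := fun h => ⟨small A, isBBWith_small (allVanishTop_of e S hS h)⟩
  tfae_finish

omit hC hH in
lemma hasBB_iff_top : HasBB A ↔ HasBBTop A 0 :=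
  ⟨fun ⟨F, hF⟩ => ⟨F, fun X => ⟨(hF.steps X).anti, (hF.steps X).zero, (hF.steps X).one,
    (hF.steps X).two⟩, fun X => (hF.steps X).top, hF.respects⟩,
    fun ⟨F, hF⟩ => ⟨F, fun X => ⟨(hF.steps X).anti, (hF.steps X).zero, (hF.steps X).one,
    (hF.steps X).two, hF.top X⟩, hF.respects⟩⟩

omit hC hH in
lemma hasBBAt_iff_top : HasBBAt A X ↔ HasBBTopAt A 0 X :=
  ⟨fun ⟨F, hF⟩ => ⟨F, ⟨hF.steps.anti, hF.steps.zero, hF.steps.one, hF.steps.two⟩, hF.steps.top,
    hF.respects⟩,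
    fun ⟨F, hF⟩ => ⟨F, ⟨hF.steps.anti, hF.steps.zero, hF.steps.one, hF.steps.two, hF.top⟩,
    hF.respects⟩⟩

/-- under the standard conjecture of Lefschetz type -/
theorem tfae_lefschetz (A : AbelJacobi H)
    (hd : ∀ (X : 𝒱.Obj) (i : ℤ) (x : C.A X), C.Deg i x → (X.dim : ℤ) < i → x = 0)
    (hB : ∀ X : 𝒱.Obj, ∃ D : C.A X, LefschetzB H D) (S : Set 𝒱.Obj)
    (hS : ∀ X, ∃ Y ∈ S, ∃ P, BlowUpOf C X P Y) (hS' : ∀ Y ∈ S, Ratl H Y) :
    List.TFAE [HasBB A, HasBBSep A, ∀ Y ∈ S, HasBBAt A Y, ∀ Y ∈ S, HasBBSepAt A Y,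
      ∀ Y ∈ S, ChainsVanish A Y] := by
  have h1 : ∀ {X : 𝒱.Obj} {F : ℕ → ℕ → Submodule ℚ (C.A X)}, IsBBAtWith A Separated X F →
      TopZero 0 F := by
    intro X F hF i x hx
    obtain ⟨D, hD⟩ := hB X
    exact top_of_lefschetz hd hF (lefschetzBelow hD i) hx
  have h3 := tfae_shift A S hS hS' 0
  have h4 : HasBBTop A (0 + 1) → HasBBSep A := fun ⟨F, hF⟩ =>
    ⟨F, hF.steps, fun X => (hF.top X).sep, hF.respects⟩
  tfae_have 1 → 2 := fun h => by
    obtain ⟨F, hF⟩ := hasBB_iff_top.1 h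
    exact ⟨F, hF.steps, fun X => (hF.top X).sep, hF.respects⟩
  tfae_have 2 → 1 := fun ⟨F, hF⟩ =>
    hasBB_iff_top.2 ⟨F, hF.steps, fun X => h1 (hF.at X), hF.respects⟩
  tfae_have 2 → 4 := fun ⟨F, hF⟩ Y _ => ⟨F Y, hF.at Y⟩
  tfae_have 4 → 3 := by
    intro h Y hY
    obtain ⟨F, hF⟩ := h Y hY
    exact hasBBAt_iff_top.2 ⟨F, hF.steps, h1 hF, hF.respects⟩
  tfae_have 3 → 5 := fun h => (h3.out 1 2).1 fun Y hY => hasBBAt_iff_top.1 (h Y hY)
  tfae_have 5 → 2 := fun h => h4 ((h3.out 2 0).1 h)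
  tfae_finish

end Pool.Agent.U935.BBR
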