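import Pool.Agent.U644.BBL.Fil
import Pool.Agent.U435.BB.Defs

/-!
# Bloch-Beilinson filtrations and rational varieties: definitions

The standing data are as in `Pool.Agent.U644.BBL.Defs`: `𝒱` is a class of smooth proper varieties
over a field which is closed under products, `C` has the formal properties of the Chow groups with
rational coefficients of these varieties, `H` those of a Weil cohomology theory with cycle class
maps, and `A` those of the Abel-Jacobi maps.
-/

set_option autoImplicit false

open CategoryTheory AlgebraicGeometry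

universe u v w

namespace Pool.Agent.U935.BBR

open Pool.Agent.H914 Pool.Agent.H914.VarClass Pool.Agent.H914.VarClass.Obj Pool.Agent.W492.BB
  Pool.Agent.U644.BBL

variable {k : Type u} [Field k] {𝒱 : VarClass k} {C : TheoryData.{u, v, 0} 𝒱 ℚ} {K : Type w}
  [Field K]

/-- The formal properties of the blow-up `g : Y ⟶ P` of the smooth proper variety `P` along the
smooth closed subvariety `i : X ⟶ P` of codimension `r ≥ 2`, with exceptional divisor `j : E ⟶ Y`
and `p : E ⟶ X` its projection (the projective bundle of the normal bundle), `ζ ∈ CH^1(E)` the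
first Chern class of `O(1)`: the dimensions are as they should be, `p ≫ i = j ≫ g`, `g_* 1 = 1`,
`j^* j_* e = - ζ e` (the self-intersection formula), `p_* ζ^(r-1) = 1`, and every class on `Y` is
of the form `g^* a + ∑_{c < r - 1} j_* (ζ^c · p^* x_c)`. -/
structure IsBlowUp (C : TheoryData.{u, v, 0} 𝒱 ℚ) (r : ℕ) {X P Y E : 𝒱.Obj} (i : X ⟶ P)
    (g : Y ⟶ P) (j : E ⟶ Y) (p : E ⟶ X) (ζ : C.A E) : Prop where
  two_le : 2 ≤ r
  dim_center : X.dim + r = P.dim
  dim_eq : Y.dim = P.dim
  dim_exc : E.dim + 1 = Y.dim
  comm : j ≫ g = p ≫ i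
  down_one : C.down g 1 = 1
  deg_zeta : C.Deg 1 ζ
  self_int : ∀ e : C.A E, C.up j (C.down j e) = -C.mul ζ e
  down_pow : C.down p (ζ ^ (r - 1)) = 1
  span : ∀ y : C.A Y, ∃ (a : C.A P) (x : ℕ → C.A X),
    y = C.up g a + ∑ c ∈ Finset.range (r - 1), C.down j (C.mul (ζ ^ c) (C.up p (x c)))

/-- `Y` is the blow-up of `P` along the smooth subvariety `X` (of codimension at least two). -/
def BlowUpOf (C : TheoryData.{u, v, 0} 𝒱 ℚ) (X P Y : 𝒱.Obj) : Prop :=
  ∃ (r : ℕ) (E : 𝒱.Obj) (i : X ⟶ P) (g : Y ⟶ P) (j : E ⟶ Y) (p : E ⟶ X) (ζ : C.A E),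
    IsBlowUp C r i g j p ζ

variable (H : WeilTheoryData.{u, v, w} C K)

/-- All homologically trivial cycle classes on `P` are zero (for example, `P` is a projective space
or another variety with a cellular decomposition). -/
def NoHomTriv (P : 𝒱.Obj) : Prop := ∀ (i : ℕ) (x : C.A P), HomTriv H i x → x = 0

/-- The smallest class of varieties which contains the varieties without homologically trivial
cycle classes and is closed under blow-ups in arbitrary smooth centres (of codimension at least
two) and under domination. If `𝒱` consists of the smooth projective varieties over an algebraically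
closed field of characteristic zero, it contains all unirational varieties, because by Hironaka a
unirational variety is dominated by an iterated blow-up of a projective space. -/
inductive Ratl : 𝒱.Obj → Prop
  | cell (P : 𝒱.Obj) (hP : NoHomTriv H P) : Ratl P
  | blowUp (X P Y : 𝒱.Obj) (hP : Ratl P) (h : BlowUpOf C X P Y) : Ratl Y
  | dominated (Y X : 𝒱.Obj) (hY : Ratl Y) (h : Dominates C Y X) : Ratl X

variable {H} (A : AbelJacobi H)

/-- The steps of a filtration `F` of the Chow groups of the variety `X` (`F i n` is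
`F^n CH^i(X)`): it is descending, `F^0` is the whole group, `F^1` consists of the homologically
trivial classes, and `F^2` is the kernel of the Abel-Jacobi map. There is no condition on the
vanishing of `F^n` for large `n`. -/
structure LowSteps {X : 𝒱.Obj} (F : ℕ → ℕ → Submodule ℚ (C.A X)) : Prop where
  anti : ∀ i n : ℕ, F i (n + 1) ≤ F i n
  zero : ∀ (i : ℕ) x, x ∈ F i 0 ↔ C.Deg i x
  one : ∀ (i : ℕ) x, x ∈ F i 1 ↔ HomTriv H i x
  two : ∀ (i : ℕ) x, x ∈ F i 2 ↔ A.Ker i x

/-- `F^(i+1+e) CH^i(X) = 0` for all `i`. -/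
def TopZero (e : ℕ) {X : 𝒱.Obj} (F : ℕ → ℕ → Submodule ℚ (C.A X)) : Prop :=
  ∀ (i : ℕ) x, x ∈ F i (i + 1 + e) → x = 0

/-- The filtrations of the Chow groups of `X` are separated: `⋂ F^n CH^i(X) = 0` for all `i`. -/
def Separated {X : 𝒱.Obj} (F : ℕ → ℕ → Submodule ℚ (C.A X)) : Prop :=
  ∀ (i : ℕ) x, (∀ n, x ∈ F i n) → x = 0

/-- A Bloch-Beilinson filtration on all varieties, with the condition `F^(i+1) CH^i(X) = 0`
replaced by `T (F X)`. -/
structure IsBBWith (T : ∀ {X : 𝒱.Obj}, (ℕ → ℕ → Submodule ℚ (C.A X)) → Prop)
    (F : ∀ X : 𝒱.Obj, ℕ → ℕ → Submodule ℚ (C.A X)) : Prop where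
  steps : ∀ X, LowSteps A (F X)
  top : ∀ X, T (F X)
  respects : ∀ X Y, Respects H (F X) (F Y)

/-- A Bloch-Beilinson filtration on the single variety `X` (with respect to its
self-correspondences of all degrees), with the condition `F^(i+1) CH^i(X) = 0` replaced by
`T F`. -/
structure IsBBAtWith (T : ∀ {X : 𝒱.Obj}, (ℕ → ℕ → Submodule ℚ (C.A X)) → Prop) (X : 𝒱.Obj)
    (F : ℕ → ℕ → Submodule ℚ (C.A X)) : Prop where
  steps : LowSteps A F
  top : T F
  respects : Respects H F F

/-- There is a system of filtrations on all varieties with the properties 1-4 of a Bloch-Beilinson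
filtration, except that `F^(i+1) CH^i(X) = 0` is weakened to `F^(i+1+e) CH^i(X) = 0`. -/
def HasBBTop (e : ℕ) : Prop := ∃ F, IsBBWith A (TopZero e) F

/-- The same for the single variety `X` and its self-correspondences. -/
def HasBBTopAt (e : ℕ) (X : 𝒱.Obj) : Prop := ∃ F, IsBBAtWith A (TopZero e) X F

/-- There is a system of filtrations on all varieties with the properties 1-4 of a Bloch-Beilinson
filtration, except that `F^(i+1) CH^i(X) = 0` is weakened to `⋂ F^n CH^i(X) = 0`. -/
def HasBBSep : Prop := ∃ F, IsBBWith A Separated F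

/-- The same for the single variety `X` and its self-correspondences. -/
def HasBBSepAt (X : 𝒱.Obj) : Prop := ∃ F, IsBBAtWith A Separated X F

/-- All classes in `CH^i(X)` which are obtained from a class in the kernel of the Abel-Jacobi map of
`X` by `i - 1 + e` successive self-correspondences as in `SelfChain` vanish. -/
def ChainsVanishTop (e : ℕ) (X : 𝒱.Obj) : Prop :=
  ∀ i z, SelfChain A X (i + 1 + e) i z → z = 0

end Pool.Agent.U935.BBR
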